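import Pool.Agent.H94.CB.M189
import Pool.Agent.H94.CB.M208
import Pool.Agent.H94.CB.M209

/-!
# EG LE Grow: growth of the coordinate at the boundary

Proof (helper41):
X0 from der_bound (L, X0).  pt_close for every chart F.c i (finitely many), epsilon = 1/4, r = 1: delta.  pr_lipschitz: for f SecOn on ball w 2, Re w ≤ -X0 - 1, dist (pr (f w')) (pr (f w)) ≤ C5 L ‖w' - w‖ for
‖w' - w‖ < 1 (fs ≤ L on ball w 1 by der_bound, Pool.Agent.H62.EF.pr_lipschitz, as in H62/EL/Zl.lean sec_lip_gd).  delta1 := min (1/2) (delta / (2 (C5 L + 1))).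
X0' := max (X0 + 2) (and large enough that exp (-X0') ≤ ‖κ_x‖ / 2 for all x).
Let c0 be from away_low, C3 := max (log 2) (- log c0).  r1 := r2 + 4.
b = 1: κ p.1 p.2 = exp z up to ... (f z in V; sS_u, u_smul, lat), ‖p.1‖ ≤ 1, so ‖p.2‖ ≥ exp (Re z) / ‖κ‖, - log ‖p.2‖ ≤ - Re z + log ‖κ‖ ≤ R + log ‖κ‖ (|Re z| ≤ ‖z - c‖ < R because c.re = 0; R > 0).
b = 0 (then k = 1, sw = false: x.2, k_eq): growth with R' := R - r2 - 2, A := {w in ball c (R - 1) | f w in (F.ch x).W} (open: f is continuous there, W is open), y w := ((F.ch x).q (f w)).2, T := T1.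
 For w in A: f w = a • s q with q in ball 0 3 (surj), y w = q.2 (k = 1), q.2 ≠ 0 because f w in U ⊆ V (s_V, ex = true); q.1 = κ⁻¹ exp w, ‖q.1‖ ≤ 1/2 if Re w ≤ -T1.
 differentiable: q_an.  hA: w in A, ‖y w‖ ≤ 1/2, so q in closedBall 0 1; for ‖w' - w‖ < delta1: dist (pr (f w')) (pr (s q)) ≤ delta (pr (f w) = pr (s q)), pt_close: f w' in W, f w' = a' • s q', ‖q' - q‖ ≤ 1/4,
 y w' = q'.2; w' in ball c (R - 1) because w in closedBall c R'.
 hs: w in A, w in closedBall c R', -T1 - delta1 ≤ Re w ≤ -T1: Away (ball w r2 ⊆ ball c R): pr (f w) in 𝒦; if ‖y w‖ ≥ 1/2: - log ≤ log 2; otherwise q in closedBall 0 1 and away_low: ‖q.2‖ ≥ c0.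
 The point z itself: z in ball c (R - r1), z in A (f z = a • sS x p = a • s p, s p in W, smul_W), y z = p.2; z in closedBall c (R' - 1).
 growth: - log ‖p.2‖ ≤ C (1 + R')^4 ≤ C (1 + R)^4 (R' ≥ 0 because the ball is not empty).
Finally take the maximum of the constants: R + log ‖κ‖ ≤ (1 + max 0 log) (1 + R)^4.
-/

set_option autoImplicit false

open Topology Filter Metric Set

namespace Pool.Agent.EG.LE

attribute [-instance] ProperSMul.toContinuousSMul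

open Pool.Agent.H36.BP (EN fs wd)
open Pool.Agent.H14.PP (IsCone Tan jac)
open Pool.Agent.H62.EF (MN pr)
open Pool.Agent.H62.EL (TForm)
open Pool.Agent.EG.RL (rot Cen Model Bphi)

variable {N : ℕ} {Xb V U D : Set (EN N)} {Λ : AddSubgroup ℂ} {u : EN N → ℂ} {α : TForm V Λ u} {κ : Type}

private theorem Grow_lip (h : EndData Xb V U D Λ u α) : ∃ L X₀ : ℝ, 0 < L ∧ ∀ (w : ℂ) (f : ℂ → EN N), w.re ≤ -X₀ → SecOn U Λ u (ball w 2) f →
    ∀ w' ∈ ball w 1, dist (pr (f w')) (pr (f w)) ≤ 2 * L * ‖w' - w‖ := by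
  obtain ⟨L, X₀, hL, hder⟩ := der_bound h
  refine ⟨L, X₀ + 1, hL, fun w f hw hf w' hw' => ?_⟩
  have hsub : ball w 1 ⊆ ball w 2 := ball_subset_ball (by norm_num)
  refine Pool.Agent.H62.EF.pr_lipschitz (U := ball w 1) isOpen_ball (convex_ball w 1) (hf.1.mono hsub) ?_ ?_ w' hw' w (mem_ball_self one_pos)
  · intro v hv h0
    exact h.cone.zero_notMem (h0 ▸ h.V_sub (h.U_sub (hf.2 v (hsub hv)).1))
  · intro v hv
    have h1 : ball v 1 ⊆ ball w 2 := by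
      refine ball_subset_ball' ?_
      have := mem_ball.1 hv
      linarith
    have h2 : v.re ≤ -X₀ := by
      have h3 : |(v - w).re| ≤ ‖v - w‖ := Complex.abs_re_le_norm _
      have h4 : ‖v - w‖ < 1 := by rw [← dist_eq_norm]; exact hv
      rw [Complex.sub_re] at h3
      have := (abs_le.1 h3).2
      linarith
    exact hder v f h2 ⟨hf.1.mono h1, fun z hz => hf.2 z (h1 hz)⟩

private theorem Grow_delta (h : EndData Xb V U D Λ u α) (F : LFam Xb V U D α κ) : ∃ δ : ℝ, 0 < δ ∧ ∀ (i : κ), ∀ p ∈ closedBall (0 : ℂ × ℂ) 1, ∀ x ∈ Xb,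
    dist (pr x) (pr ((F.c i).s p)) ≤ δ → x ∈ (F.c i).W ∧ ∃ p' ∈ ball (0 : ℂ × ℂ) 3, ‖p' - p‖ ≤ 1 / 4 ∧ ∃ a : ℂ, a ≠ 0 ∧ x = a • (F.c i).s p' := by
  have hfin := F.fin
  choose δ hδ hδP using fun i => pt_close h (F.c i) (ε := 1 / 4) (by norm_num) (r := 1) (by norm_num)
  have h1 : ∀ᶠ d in 𝓝[>] (0 : ℝ), ∀ i, d < δ i := by
    rw [Filter.eventually_all]
    intro i
    exact mem_nhdsWithin_of_mem_nhds (gt_mem_nhds (hδ i))
  obtain ⟨d, hd1, hd2⟩ := (h1.and self_mem_nhdsWithin).exists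
  refine ⟨d, hd2, fun i p hp x hx hdist => ?_⟩
  exact hδP i p hp x hx (hdist.trans (hd1 i).le)

private theorem Grow_K (F : LFam Xb V U D α κ) : ∃ K : ℝ, 0 ≤ K ∧ ∀ i, |Real.log ‖(F.c i).κ‖| ≤ K := by
  have hfin := F.fin
  have h1 : ∀ᶠ K in (atTop : Filter ℝ), ∀ i, |Real.log ‖(F.c i).κ‖| ≤ K := by
    rw [Filter.eventually_all]
    intro i
    exact eventually_ge_atTop _
  obtain ⟨K, hK1, hK2⟩ := (h1.and (eventually_ge_atTop 0)).exists
  exact ⟨K, hK2, hK1⟩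

private theorem Grow_exp (h : EndData Xb V U D Λ u α) (F : LFam Xb V U D α κ) (x : Ix F) {Ω : Set ℂ} {f : ℂ → EN N} (hf : SecOn U Λ u Ω f) {w : ℂ}
    (hw : w ∈ Ω) {q : ℂ × ℂ} (hq : q ∈ ball (0 : ℂ × ℂ) 3) {a : ℂ} (ha : a ≠ 0) (he : f w = a • F.sS x q) :
    F.sS x q ∈ V ∧ (F.ch x).κ * q.1 * q.2 ^ (F.ch x).b = Complex.exp w := by
  have h1 : f w ∈ V := h.U_sub (hf.2 w hw).1
  have h2 : F.sS x q ∈ V := by
    have h3 := h.V_smul _ h1 _ (inv_ne_zero ha)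
    rw [he, smul_smul, inv_mul_cancel₀ ha, one_smul] at h3
    exact h3
  refine ⟨h2, ?_⟩
  rw [← atl_u, ← sS_u F x hq h2]
  have h4 := (h.lat _).1 (h.u_smul _ h2 a ha)
  have h5 := (h.lat _).1 (hf.2 w hw).2
  rw [Complex.exp_sub, div_eq_one_iff_eq (Complex.exp_ne_zero _)] at h4 h5
  rw [← h4, ← he, h5]

private theorem Grow_cen {p : ℂ × ℂ} (hp : CenS p) : p ∈ ball (0 : ℂ × ℂ) 3 := by
  rw [mem_ball_zero_iff, Prod.norm_def, max_lt_iff]
  have h1 := hp.1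
  have h2 := hp.2
  constructor <;> linarith

private theorem Grow_re {c z : ℂ} {r : ℝ} (hc : c.re = 0) (hz : dist z c < r) : -z.re < r := by
  have h3 : |(z - c).re| ≤ ‖z - c‖ := Complex.abs_re_le_norm _
  rw [Complex.sub_re, hc, sub_zero, ← dist_eq_norm] at h3
  have := (abs_le.1 h3).1
  linarith

/-- the case of a node -/
private theorem Grow_one (h : EndData Xb V U D Λ u α) (F : LFam Xb V U D α κ) {K : ℝ} (hK : ∀ i, |Real.log ‖(F.c i).κ‖| ≤ K) {c : ℂ} {R r₁ : ℝ} {f : ℂ → EN N} {z : ℂ}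
    {x : Ix F} {p : ℂ × ℂ} (hr : 0 < r₁) (hc : c.re = 0) (hf : SecOn U Λ u (ball c R) f) (hz : z ∈ ball c (R - r₁)) (hb : (F.ch x).b = 1) (hp : CenS p)
    (he : ∃ a : ℂ, a ≠ 0 ∧ f z = a • F.sS x p) : -Real.log ‖p.2‖ ≤ R + K := by
  obtain ⟨a, ha, hfa⟩ := he
  have hzR : z ∈ ball c R := ball_subset_ball (by linarith) hz
  obtain ⟨-, h1⟩ := Grow_exp h F x hf hzR (Grow_cen hp) ha hfa
  rw [hb, pow_one] at h1
  have h2 := congrArg norm h1
  rw [norm_mul, norm_mul, Complex.norm_exp] at h2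
  have hκ : 0 < ‖(F.ch x).κ‖ := norm_pos_iff.2 (F.ch x).κ_ne
  have hp1 : 0 < ‖p.1‖ := by
    rw [norm_pos_iff]
    intro h0
    rw [h0, norm_zero, mul_zero, zero_mul] at h2
    exact absurd h2 (Real.exp_pos _).ne
  have hp2 : 0 < ‖p.2‖ := by
    rw [norm_pos_iff]
    intro h0
    rw [h0, norm_zero, mul_zero] at h2
    exact absurd h2 (Real.exp_pos _).ne
  have h3 := congrArg Real.log h2
  rw [Real.log_exp, Real.log_mul (mul_pos hκ hp1).ne' hp2.ne', Real.log_mul hκ.ne' hp1.ne'] at h3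
  have h4 : Real.log ‖p.1‖ ≤ 0 := Real.log_nonpos hp1.le (by have := hp.1; linarith)
  have h5 : Real.log ‖(F.ch x).κ‖ ≤ K := (le_abs_self _).trans (hK x.1.1)
  have h6 := Grow_re hc (mem_ball.1 hz)
  linarith

/-- the case of a simple point of the fibre -/
private theorem Grow_zero (h : EndData Xb V U D Λ u α) (F : LFam Xb V U D α κ) {K L X₀ δ δ₁ : ℝ} (hK : ∀ i, |Real.log ‖(F.c i).κ‖| ≤ K)
    (hLip : ∀ (w : ℂ) (f : ℂ → EN N), w.re ≤ -X₀ → SecOn U Λ u (ball w 2) f → ∀ w' ∈ ball w 1, dist (pr (f w')) (pr (f w)) ≤ 2 * L * ‖w' - w‖)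
    (hδ : ∀ (i : κ), ∀ p ∈ closedBall (0 : ℂ × ℂ) 1, ∀ x ∈ Xb,
      dist (pr x) (pr ((F.c i).s p)) ≤ δ → x ∈ (F.c i).W ∧ ∃ p' ∈ ball (0 : ℂ × ℂ) 3, ‖p' - p‖ ≤ 1 / 4 ∧ ∃ a : ℂ, a ≠ 0 ∧ x = a • (F.c i).s p')
    (hL : 0 < L) (hδ₁ : 0 < δ₁) (hδ₁2 : δ₁ ≤ 1 / 2) (hδ₁L : 2 * L * δ₁ ≤ δ) {T₁ r₂ : ℝ} (hT0 : 0 < T₁) (hTX : X₀ ≤ T₁) (hTK : K + Real.log 2 ≤ T₁)
    (hr₂ : 0 < r₂) (hA : Away V U Λ u T₁ r₂) :
    ∃ C : ℝ, 0 ≤ C ∧ ∀ (c : ℂ) (R : ℝ) (f : ℂ → EN N) (z : ℂ) (x : Ix F) (p : ℂ × ℂ), c.re = 0 → SecOn U Λ u (ball c R) f →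
      z ∈ ball c (R - (r₂ + 4)) → z.re ≤ -T₁ → (F.ch x).ex = true → (F.ch x).b = 0 → CenS p → (∃ a : ℂ, a ≠ 0 ∧ f z = a • F.sS x p) →
      -Real.log ‖p.2‖ ≤ C * (1 + R) ^ 4 := by
  obtain ⟨𝒦, h𝒦, h𝒦V, hAw⟩ := hA
  obtain ⟨c₀, hc₀, hlow⟩ := away_low h F h𝒦 h𝒦V
  obtain ⟨C, hC, hgr⟩ := growth (δ₁ := δ₁) (C₃ := max (Real.log 2) (-Real.log c₀)) hδ₁ (by linarith)
    ((Real.log_nonneg (by norm_num)).trans (le_max_left _ _))
  refine ⟨C, hC, ?_⟩
  intro c R f z x p hc hf hz hzT hex hb hp he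
  have hk : (F.ch x).k = 1 := by
    rcases (F.ch x).k_eq with h1 | h1
    · exact h1
    · rw [hb] at h1
      exact absurd h1 zero_ne_one
  have hsw : x.1.2 = false := by
    by_contra h1
    have h2 : (F.ch x).b = 1 := x.2 (by simpa using h1)
    rw [hb] at h2
    exact zero_ne_one h2
  have hsS : ∀ q, F.sS x q = (F.ch x).s q := by
    intro q
    unfold LFam.sS swp
    rw [hsw]
    simp
  have hqf : ∀ {v : EN N} {q : ℂ × ℂ} {a : ℂ}, q ∈ ball (0 : ℂ × ℂ) 3 → a ≠ 0 → v = a • (F.ch x).s q → (F.ch x).q v = q := by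
    intro v q a hq ha hv
    have h1 := (F.ch x).s_mem q hq
    rw [hv, (F.ch x).q_smul _ h1.2.1 a ha, h1.2.2, hk, pow_one, pow_one]
  -- the points of `A`
  have hpt : ∀ w ∈ ball c R, f w ∈ (F.ch x).W → ∃ q ∈ ball (0 : ℂ × ℂ) 3, ∃ a : ℂ, a ≠ 0 ∧ f w = a • (F.ch x).s q ∧ (F.ch x).q (f w) = q ∧ q.2 ≠ 0 ∧
      (F.ch x).κ * q.1 = Complex.exp w := by
    intro w hw hwW
    have hwU := (hf.2 w hw).1
    obtain ⟨q, hq, a, ha, hfa⟩ := (F.ch x).surj (f w) (h.V_sub (h.U_sub hwU)) hwW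
    obtain ⟨h1, h2⟩ := Grow_exp h F x hf hw hq ha (by rw [hsS]; exact hfa)
    rw [hb, pow_zero, mul_one] at h2
    rw [hsS] at h1
    exact ⟨q, hq, a, ha, hfa, hqf hq ha hfa, ((((F.ch x).s_V q hq).1 h1).2 hex), h2⟩
  have hκ : 0 < ‖(F.ch x).κ‖ := norm_pos_iff.2 (F.ch x).κ_ne
  have hhalf : ∀ (w : ℂ) (q : ℂ × ℂ), w.re ≤ -T₁ → (F.ch x).κ * q.1 = Complex.exp w → ‖q.1‖ ≤ 1 / 2 := by
    intro w q hw hq
    have h1 := congrArg norm hq
    rw [norm_mul, Complex.norm_exp] at h1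
    have h2 : -Real.log ‖(F.ch x).κ‖ ≤ K := (neg_le_abs _).trans (hK x.1.1)
    have h3 : Real.exp w.re ≤ ‖(F.ch x).κ‖ / 2 := by
      rw [← Real.le_log_iff_exp_le (by positivity), Real.log_div hκ.ne' (by norm_num)]
      linarith
    have h4 : ‖(F.ch x).κ‖ * ‖q.1‖ ≤ ‖(F.ch x).κ‖ * (1 / 2) := by
      rw [h1]
      linarith
    exact le_of_mul_le_mul_left h4 hκ
  have hmono : ∀ {w : ℂ} {r : ℝ}, dist w c + r ≤ R → SecOn U Λ u (ball w r) f := by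
    intro w r hw
    have h1 : ball w r ⊆ ball c R := ball_subset_ball' (by linarith)
    exact ⟨hf.1.mono h1, fun v hv => hf.2 v (h1 hv)⟩
  have hsub1 : ball c (R - 1) ⊆ ball c R := ball_subset_ball (by linarith)
  have hzd : dist z c < R - (r₂ + 4) := mem_ball.1 hz
  have hz0 : 0 ≤ dist z c := dist_nonneg
  have hclosed : ∀ q : ℂ × ℂ, ‖q.1‖ ≤ 1 / 2 → ‖q.2‖ ≤ 1 / 2 → q ∈ closedBall (0 : ℂ × ℂ) 1 := by
    intro q h1 h2
    rw [mem_closedBall_zero_iff, Prod.norm_def, max_le_iff]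
    constructor <;> linarith
  have hmain := hgr c (R - r₂ - 2) T₁ (ball c (R - 1) ∩ f ⁻¹' (F.ch x).W) (fun w => ((F.ch x).q (f w)).2) hc hT0
    ((hf.1.continuousOn.mono hsub1).isOpen_inter_preimage isOpen_ball (F.ch x).isOpen_W)
    (by
      intro w hw
      have h1 : DifferentiableAt ℂ f w := hf.1.differentiableAt (isOpen_ball.mem_nhds (hsub1 hw.1))
      have h2 : DifferentiableAt ℂ (F.ch x).q (f w) := ((F.ch x).q_an _ hw.2).differentiableAt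
      exact (DifferentiableAt.comp (g := (F.ch x).q) (f := f) w h2 h1).snd.differentiableWithinAt)
    (by
      intro w hw
      obtain ⟨q, -, a, -, -, h1, h2, -⟩ := hpt w (hsub1 hw.1) hw.2
      simp only [h1]
      exact h2)
    (by
      intro w hw hyw hwR hwT
      obtain ⟨q, hq, a, ha, hfa, h1, h2, h3⟩ := hpt w (hsub1 hw.1) hw.2
      simp only [h1] at hyw ⊢
      have hwR' : dist w c ≤ R - r₂ - 2 := mem_closedBall.1 hwR
      have hqc := hclosed q (hhalf w q hwT h3) hyw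
      have hS : SecOn U Λ u (ball w 2) f := hmono (by linarith)
      have hkey : ∀ w' ∈ ball w δ₁, w' ∈ ball c (R - 1) ∩ f ⁻¹' (F.ch x).W ∧ ‖((F.ch x).q (f w')).2 - q.2‖ ≤ 1 / 4 := by
        intro w' hw'
        have hw'd : dist w' w < δ₁ := mem_ball.1 hw'
        have hw'1 : w' ∈ ball w 1 := mem_ball.2 (by linarith)
        have hw'2 : w' ∈ ball w 2 := mem_ball.2 (by linarith)
        have h4 := hLip w f (by linarith) hS w' hw'1
        have h5 : dist (pr (f w')) (pr ((F.c x.1.1).s q)) ≤ δ := by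
          have h6 : pr (f w) = pr ((F.c x.1.1).s q) := by
            rw [hfa]
            exact Pool.Agent.H62.EF.pr_smul _ ha
          rw [← h6]
          refine h4.trans (le_trans ?_ hδ₁L)
          rw [← dist_eq_norm]
          exact mul_le_mul_of_nonneg_left hw'd.le (by positivity)
        obtain ⟨h6, q', hq', hqq, a', ha', hfa'⟩ := hδ x.1.1 q hqc (f w') (h.V_sub (h.U_sub (hS.2 w' hw'2).1)) h5
        have h7 : (F.ch x).q (f w') = q' := hqf hq' ha' hfa'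
        have h8 : w' ∈ ball c (R - 1) := by
          have h9 := dist_triangle w' w c
          rw [mem_ball]
          linarith
        refine ⟨⟨h8, h6⟩, ?_⟩
        rw [h7, ← Prod.snd_sub]
        exact (norm_snd_le _).trans hqq
      exact ⟨fun w' hw' => (hkey w' hw').1, fun w' hw' => (hkey w' hw').2⟩)
    (by
      intro w hw hwR hwT1 hwT2
      obtain ⟨q, hq, a, ha, hfa, h1, h2, h3⟩ := hpt w (hsub1 hw.1) hw.2
      simp only [h1]
      have hwR' : dist w c ≤ R - r₂ - 2 := mem_closedBall.1 hwR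
      have h4 := hAw w f (by linarith) hwT2 (hmono (by linarith))
      have hq2 : 0 < ‖q.2‖ := norm_pos_iff.2 h2
      rcases le_or_gt ‖q.2‖ (1 / 2) with h5 | h5
      · refine le_trans ?_ (le_max_right _ _)
        have h6 : pr (F.sS x q) ∈ 𝒦 := by
          rw [hsS, ← Pool.Agent.H62.EF.pr_smul _ ha, ← hfa]
          exact h4
        have h7 := hlow x q hex (hclosed q (hhalf w q hwT2 h3) h5) h6
        exact neg_le_neg (Real.log_le_log hc₀ h7)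
      · refine le_trans ?_ (le_max_left _ _)
        have h6 : Real.log (1 / 2) ≤ Real.log ‖q.2‖ := Real.log_le_log (by norm_num) h5.le
        rw [one_div, Real.log_inv] at h6
        linarith)
    z
    (by
      obtain ⟨a, ha, hfa⟩ := he
      refine ⟨mem_ball.2 (by linarith), ?_⟩
      rw [mem_preimage, hfa, hsS]
      exact (F.ch x).smul_W _ ((F.ch x).s_mem p (Grow_cen hp)).2.1 a ha)
    (mem_closedBall.2 (by linarith)) hzT
  obtain ⟨a, ha, hfa⟩ := he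
  have h1 : (F.ch x).q (f z) = p := hqf (Grow_cen hp) ha (by rw [hfa, hsS])
  simp only [h1] at hmain
  refine hmain.trans (mul_le_mul_of_nonneg_left ?_ hC)
  exact pow_le_pow_left₀ (by linarith) (by linarith) 4

theorem hbound (h : EndData Xb V U D Λ u α) (F : LFam Xb V U D α κ) : ∃ X₀ : ℝ, ∀ T₁ r₂ : ℝ, X₀ ≤ T₁ → 0 < r₂ → Away V U Λ u T₁ r₂ →
    ∃ C r₁ : ℝ, 0 ≤ C ∧ 0 < r₁ ∧ ∀ (c : ℂ) (R : ℝ) (f : ℂ → EN N) (z : ℂ) (x : Ix F) (p : ℂ × ℂ), c.re = 0 → SecOn U Λ u (ball c R) f →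
      z ∈ ball c (R - r₁) → z.re ≤ -T₁ → (F.ch x).ex = true → CenS p → (∃ a : ℂ, a ≠ 0 ∧ f z = a • F.sS x p) →
      -Real.log ‖p.2‖ ≤ C * (1 + R) ^ 4 := by
  obtain ⟨L, X₀, hL, hLip⟩ := Grow_lip h
  obtain ⟨δ, hδ, hδP⟩ := Grow_delta h F
  obtain ⟨K, hK0, hK⟩ := Grow_K F
  obtain ⟨δ₁, hδ₁⟩ : ∃ δ₁ : ℝ, δ₁ = min (1 / 2) (δ / (2 * L)) := ⟨_, rfl⟩
  have h2L : 0 < 2 * L := by positivity
  have hδ₁0 : 0 < δ₁ := by
    rw [hδ₁]
    exact lt_min (by norm_num) (div_pos hδ h2L)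
  have hδ₁2 : δ₁ ≤ 1 / 2 := by
    rw [hδ₁]
    exact min_le_left _ _
  have hδ₁L : 2 * L * δ₁ ≤ δ := by
    have h1 : δ₁ ≤ δ / (2 * L) := by
      rw [hδ₁]
      exact min_le_right _ _
    rw [le_div_iff₀ h2L] at h1
    linarith
  refine ⟨max (max X₀ 1) (K + Real.log 2), fun T₁ r₂ hT hr₂ hA => ?_⟩
  have hTX : X₀ ≤ T₁ := ((le_max_left _ _).trans (le_max_left _ _)).trans hT
  have hT1 : 1 ≤ T₁ := ((le_max_right _ _).trans (le_max_left _ _)).trans hT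
  have hTK : K + Real.log 2 ≤ T₁ := (le_max_right _ _).trans hT
  obtain ⟨C, hC, hCP⟩ := Grow_zero h F hK hLip hδP hL hδ₁0 hδ₁2 hδ₁L (by linarith) hTX hTK hr₂ hA
  refine ⟨C + (1 + K), r₂ + 4, by positivity, by positivity, ?_⟩
  intro c R f z x p hc hf hz hzT hex hp he
  have hzd : dist z c < R - (r₂ + 4) := mem_ball.1 hz
  have hz0 : 0 ≤ dist z c := dist_nonneg
  have hR : 0 < R := by linarith
  have hR4 : 1 + R ≤ (1 + R) ^ 4 := le_self_pow₀ (by linarith) (by norm_num)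
  have hb2 : (F.ch x).b = 0 ∨ (F.ch x).b = 1 := by
    have := (F.ch x).b_le
    omega
  have hmul : (C + (1 + K)) * (1 + R) ^ 4 = C * (1 + R) ^ 4 + ((1 + R) ^ 4 + K * (1 + R) ^ 4) := by ring
  have hK4 : K ≤ K * (1 + R) ^ 4 := le_mul_of_one_le_right hK0 (by linarith)
  have hC4 : 0 ≤ C * (1 + R) ^ 4 := mul_nonneg hC (by positivity)
  rw [hmul]
  rcases hb2 with hb | hb
  · have h1 := hCP c R f z x p hc hf hz hzT hex hb hp he
    linarith
  · have h1 := Grow_one h F hK (by positivity) hc hf hz hb hp he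
    linarith

end Pool.Agent.EG.LE
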