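import Pool.Agent.H94.CB.M204

/-!
# EG LE SeamA: two near sections in a cell, away from the boundary

Proof (helper41):
One x suffices (finitely many x: the minimum of the epsilons).  c := F.ch x, k := c.k, b := c.b, sw := x.1.2, G := F.sS x.
eps3: p, p' in closedBall 0 (3/2), ‖p - p'‖ ≤ eps3 imply dist (pr (sS x p)) (pr (sS x p')) ≤ eps1 (uniform continuity on a compact set).
eps := min (1/8) (min (eps3 / 8) (c0 / (64 k) * min 1 eps3)) or smaller; eps' := delta of pt_close (chart c, r = 1, this eps).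
ε'-closeness: dist (pr (sS x (XX t w0))) (pr y) ≤ eps', XX t w0 = p with CenS p, ‖p.2‖ ≥ c0 if ex = true; y in V, u y - t in Λ.
pt_close: y in W, y = a • c.s p'', ‖p'' - swp sw p‖ ≤ eps; p1 := swp sw p'': ‖p1 - p‖ ≤ eps, y = a • sS x p1, (swp sw (c.q y)).2 = p1.2 ^ k.
κ p1.1 p1.2 ^ b = exp t (sS_u, u_smul, lat).
ex = false (b = 0, k = 1): w1 := p1.2 = (swp sw (c.q y)).2, XX x t w1 = (κ⁻¹ exp t, p1.2) = p1; on the segment XX x t w = (κ⁻¹ exp t, w), distance ≤ eps from p.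
ex = true: p.2 = exp w0, ‖p.2‖ ≥ c0; p1.2 = p.2 (1 + s), ‖s‖ ≤ eps / c0 ≤ 1 / (64 k); (c.q y)-component / (p.2)^k = (1 + s)^k, log ((1 + s)^k) = k log (1 + s) (‖log (1 + s)‖ ≤ 2 ‖s‖, so |k Im log (1 + s)| < π:
Complex.log_pow or log_exp), w1 := w0 + (1 / k) log ((swp sw (c.q y)).2 / exp (k w0)) = w0 + log (1 + s), exp w1 = p1.2, XX x t w1 = p1; ‖w1 - w0‖ ≤ 2 ‖s‖ ≤ 1.
 On the segment w = w0 + θ (w1 - w0): XX x t w = (p.1 exp (- b θ (w1 - w0)), p.2 exp (θ (w1 - w0))), distance from p ≤ 2 ‖w1 - w0‖ ≤ 4 ‖s‖ ≤ 4 eps / c0 ≤ eps3.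
The conclusion of seam_pt is for the function nx x t w0 y (the next coordinate), defined below by the same formula in both cases.
-/

set_option autoImplicit false

open Topology Filter Metric Set

namespace Pool.Agent.EG.LE

attribute [-instance] ProperSMul.toContinuousSMul

open Pool.Agent.H36.BP (EN fs wd)
open Pool.Agent.H14.PP (IsCone Tan jac)
open Pool.Agent.H62.EF (MN pr)
open Pool.Agent.H62.EL (TForm)
open Pool.Agent.EG.RL (rot Cen Model Bphi)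

variable {N : ℕ} {Xb V U D : Set (EN N)} {Λ : AddSubgroup ℂ} {u : EN N → ℂ} {α : TForm V Λ u} {κ : Type}

/-- the coordinate of the point `y` of the cell, near `w₀` -/
noncomputable def LFam.nx (F : LFam Xb V U D α κ) (x : Ix F) (w₀ : ℂ) (y : EN N) : ℂ :=
  if (F.ch x).ex = true then w₀ + Complex.log ((swp x.1.2 ((F.ch x).q y)).2 / Complex.exp ((F.ch x).k * w₀)) / (F.ch x).k
  else (swp x.1.2 ((F.ch x).q y)).2

private theorem SeamA_inv (sw : Bool) (p : ℂ × ℂ) : swp sw (swp sw p) = p := by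
  unfold swp
  split_ifs
  · simp
  · rfl

private theorem SeamA_norm (sw : Bool) (p : ℂ × ℂ) : ‖swp sw p‖ = ‖p‖ := by
  unfold swp
  split_ifs
  · rw [Prod.norm_def, Prod.norm_def, Prod.fst_swap, Prod.snd_swap, max_comm]
  · rfl

private theorem SeamA_sub (sw : Bool) (p q : ℂ × ℂ) : swp sw (p - q) = swp sw p - swp sw q := by
  unfold swp
  split_ifs
  · rfl
  · rfl

private theorem SeamA_pow (sw : Bool) (p : ℂ × ℂ) (k : ℕ) :
    swp sw (p.1 ^ k, p.2 ^ k) = ((swp sw p).1 ^ k, (swp sw p).2 ^ k) := by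
  unfold swp
  split_ifs
  · rfl
  · rfl

private theorem SeamA_fst {p q : ℂ × ℂ} {r : ℝ} (h : ‖p - q‖ ≤ r) : ‖p.1‖ ≤ ‖q.1‖ + r ∧ ‖p.2‖ ≤ ‖q.2‖ + r := by
  have h1 : ‖p.1 - q.1‖ ≤ r := (norm_fst_le (p - q)).trans h
  have h2 : ‖p.2 - q.2‖ ≤ r := (norm_snd_le (p - q)).trans h
  have h3 := norm_sub_norm_le p.1 q.1
  have h4 := norm_sub_norm_le p.2 q.2
  constructor <;> linarith

private theorem SeamA_fin {ι : Type} [Finite ι] (f : ι → ℝ) (hf : ∀ i, 0 < f i) : ∃ δ : ℝ, 0 < δ ∧ ∀ i, δ ≤ f i := by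
  rcases isEmpty_or_nonempty ι with he | he
  · exact ⟨1, one_pos, fun i => (he.false i).elim⟩
  · obtain ⟨i0, hi0⟩ := Finite.exists_min f
    exact ⟨f i0, hf i0, hi0⟩

private theorem SeamA_unif (h : EndData Xb V U D Λ u α) (F : LFam Xb V U D α κ) (x : Ix F) {ε₁ : ℝ} (hε : 0 < ε₁) :
    ∃ δ : ℝ, 0 < δ ∧ ∀ p ∈ closedBall (0 : ℂ × ℂ) (3 / 2), ∀ p' ∈ closedBall (0 : ℂ × ℂ) (3 / 2), ‖p - p'‖ ≤ δ →
      dist (pr (F.sS x p)) (pr (F.sS x p')) ≤ ε₁ := by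
  have h1 : ContinuousOn (fun p => pr (F.sS x p)) (closedBall (0 : ℂ × ℂ) (3 / 2)) := by
    intro p hp
    have hp3 : p ∈ ball (0 : ℂ × ℂ) 3 := closedBall_subset_ball (by norm_num) hp
    have h2 : F.sS x p ≠ 0 := s_ne h (F.ch x) (swp_ball x.1.2 hp3)
    have h3 := (sS_an F x hp3).continuousAt
    have h4 : ContinuousAt pr (F.sS x p) := Pool.Agent.H62.EF.continuousAt_pr h2
    exact (ContinuousAt.comp (g := pr) (f := F.sS x) h4 h3).continuousWithinAt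
  have h2 := (isCompact_closedBall (0 : ℂ × ℂ) (3 / 2)).uniformContinuousOn_of_continuous h1
  rw [Metric.uniformContinuousOn_iff] at h2
  obtain ⟨δ, hδ, h3⟩ := h2 ε₁ hε
  refine ⟨δ / 2, by positivity, fun p hp p' hp' hpp => ?_⟩
  refine (h3 p hp p' hp' ?_).le
  rw [dist_eq_norm]
  linarith

/-- the exchanged coordinates of the near point -/
private theorem SeamA_point (h : EndData Xb V U D Λ u α) (F : LFam Xb V U D α κ) (x : Ix F) {ε δ : ℝ} (hε : ε ≤ 1 / 64)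
    (hδ : ∀ p ∈ closedBall (0 : ℂ × ℂ) 1, ∀ y ∈ Xb, dist (pr y) (pr ((F.ch x).s p)) ≤ δ →
      y ∈ (F.ch x).W ∧ ∃ p' ∈ ball (0 : ℂ × ℂ) 3, ‖p' - p‖ ≤ ε ∧ ∃ a : ℂ, a ≠ 0 ∧ y = a • (F.ch x).s p')
    {t w₀ : ℂ} {y : EN N} (hC : CenS (F.XX x t w₀)) (hy : y ∈ V) (hut : u y - t ∈ Λ)
    (hd : dist (pr (F.Phi x t w₀)) (pr y) ≤ δ) :
    y ∈ (F.ch x).W ∧ ∃ p₁ : ℂ × ℂ, ‖p₁ - F.XX x t w₀‖ ≤ ε ∧ Cen p₁ ∧ (∃ a : ℂ, a ≠ 0 ∧ y = a • F.sS x p₁) ∧
      (swp x.1.2 ((F.ch x).q y)).2 = p₁.2 ^ (F.ch x).k ∧ (F.ch x).κ * p₁.1 * p₁.2 ^ (F.ch x).b = Complex.exp t := by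
  have hp1 : swp x.1.2 (F.XX x t w₀) ∈ closedBall (0 : ℂ × ℂ) 1 := by
    rw [mem_closedBall_zero_iff, SeamA_norm, Prod.norm_def]
    exact max_le (by linarith [hC.1]) (by linarith [hC.2])
  have hd' : dist (pr y) (pr ((F.ch x).s (swp x.1.2 (F.XX x t w₀)))) ≤ δ := by
    rw [dist_comm]
    exact hd
  obtain ⟨hW, p', hp', hpp, a, ha, hya⟩ := hδ _ hp1 y (h.V_sub hy) hd'
  refine ⟨hW, swp x.1.2 p', ?_, ?_, ⟨a, ha, ?_⟩, ?_, ?_⟩
  · have h1 : swp x.1.2 p' - F.XX x t w₀ = swp x.1.2 (p' - swp x.1.2 (F.XX x t w₀)) := by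
      rw [SeamA_sub, SeamA_inv]
    rw [h1, SeamA_norm]
    exact hpp
  · have h1 : swp x.1.2 p' - F.XX x t w₀ = swp x.1.2 (p' - swp x.1.2 (F.XX x t w₀)) := by
      rw [SeamA_sub, SeamA_inv]
    have h2 : ‖swp x.1.2 p' - F.XX x t w₀‖ ≤ 1 / 64 := by
      rw [h1, SeamA_norm]
      exact hpp.trans hε
    have h3 := SeamA_fst h2
    exact ⟨by linarith [h3.1, hC.1], by linarith [h3.2, hC.2]⟩
  · unfold LFam.sS
    rw [SeamA_inv]
    exact hya
  · have h1 := (F.ch x).s_mem p' hp'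
    rw [hya, (F.ch x).q_smul _ h1.2.1 a ha, h1.2.2, SeamA_pow]
  · have hs : F.sS x (swp x.1.2 p') = (F.ch x).s p' := by
      unfold LFam.sS
      rw [SeamA_inv]
    have hb3 : swp x.1.2 p' ∈ ball (0 : ℂ × ℂ) 3 := swp_ball x.1.2 hp'
    have hsV : F.sS x (swp x.1.2 p') ∈ V := by
      rw [hs]
      have h1 := h.V_smul y hy a⁻¹ (inv_ne_zero ha)
      rw [hya, smul_smul, inv_mul_cancel₀ ha, one_smul] at h1
      exact h1
    have h1 := sS_u F x hb3 hsV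
    rw [atl_u] at h1
    rw [← h1]
    have h2 := h.u_smul _ hsV a ha
    rw [hs] at h2 ⊢
    rw [← hya] at h2
    have h3 := (h.lat _).1 h2
    have h4 := (h.lat _).1 hut
    rw [Complex.exp_sub, div_eq_one_iff_eq (Complex.exp_ne_zero _)] at h3 h4
    rw [← h3, h4]

private theorem SeamA_one (h : EndData Xb V U D Λ u α) (F : LFam Xb V U D α κ) {c₀ ε₁ : ℝ} (hc : 0 < c₀) (hε : 0 < ε₁) (x : Ix F) :
    ∃ ε' : ℝ, 0 < ε' ∧ ∀ (t w₀ : ℂ) (y : EN N), CenS (F.XX x t w₀) → ((F.ch x).ex = true → c₀ ≤ ‖(F.XX x t w₀).2‖) →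
      y ∈ V → u y - t ∈ Λ → dist (pr (F.Phi x t w₀)) (pr y) ≤ ε' →
      y ∈ (F.ch x).W ∧ ((F.ch x).ex = true → ‖(swp x.1.2 ((F.ch x).q y)).2 / Complex.exp ((F.ch x).k * w₀) - 1‖ < 1 / 2) ∧
      Cen (F.XX x t (F.nx x w₀ y)) ∧ (∃ a : ℂ, a ≠ 0 ∧ y = a • F.Phi x t (F.nx x w₀ y)) ∧ ‖F.nx x w₀ y‖ ≤ ‖w₀‖ + 1 ∧
      ∀ θ ∈ Icc (0 : ℝ) 1, F.XX x t (w₀ + θ * (F.nx x w₀ y - w₀)) ∈ ball (0 : ℂ × ℂ) 2 ∧
        dist (pr (F.Phi x t (w₀ + θ * (F.nx x w₀ y - w₀)))) (pr (F.Phi x t w₀)) ≤ ε₁ := by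
  obtain ⟨ε₃, hε₃, hun⟩ := SeamA_unif h F x hε
  have hk : (1 : ℝ) ≤ ((F.ch x).k : ℝ) := by exact_mod_cast (F.ch x).k_pos
  have hk0 : (0 : ℝ) < ((F.ch x).k : ℝ) := by linarith
  set m : ℝ := min 1 c₀ with hm
  set n : ℝ := min 1 ε₃ with hn
  have hm0 : 0 < m := lt_min one_pos hc
  have hn0 : 0 < n := lt_min one_pos hε₃
  have hm1 : m ≤ 1 := min_le_left _ _
  have hmc : m ≤ c₀ := min_le_right _ _
  have hn1 : n ≤ 1 := min_le_left _ _
  have hn3 : n ≤ ε₃ := min_le_right _ _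
  set ε : ℝ := m * n / (64 * (F.ch x).k) with hεd
  have hε0 : 0 < ε := by positivity
  have hεk : ε * (F.ch x).k = m * n / 64 := by
    rw [hεd]
    field_simp
  have hmn : m * n ≤ n := mul_le_of_le_one_left hn0.le hm1
  have hεn : ε ≤ n / 64 := by
    have h1 : ε ≤ ε * (F.ch x).k := le_mul_of_one_le_right hε0.le hk
    rw [hεk] at h1
    linarith
  obtain ⟨δ, hδ0, hδ⟩ := pt_close h (F.ch x) hε0 (show (1 : ℝ) < 3 by norm_num)
  refine ⟨δ, hδ0, fun t w₀ y hC hlow hy hut hd => ?_⟩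
  obtain ⟨hW, p₁, hp1, hCen, ⟨a, ha, hya⟩, hq, hu1⟩ := SeamA_point h F x (by linarith) hδ hC hy hut hd
  have hCn := SeamA_fst hp1
  -- the end of the proof from the facts on the coordinate
  have hend : F.XX x t (F.nx x w₀ y) = p₁ → ‖F.nx x w₀ y‖ ≤ ‖w₀‖ + 1 →
      (∀ θ ∈ Icc (0 : ℝ) 1, ‖F.XX x t (w₀ + θ * (F.nx x w₀ y - w₀)) - F.XX x t w₀‖ ≤ n / 2) →
      Cen (F.XX x t (F.nx x w₀ y)) ∧ (∃ a : ℂ, a ≠ 0 ∧ y = a • F.Phi x t (F.nx x w₀ y)) ∧ ‖F.nx x w₀ y‖ ≤ ‖w₀‖ + 1 ∧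
      ∀ θ ∈ Icc (0 : ℝ) 1, F.XX x t (w₀ + θ * (F.nx x w₀ y - w₀)) ∈ ball (0 : ℂ × ℂ) 2 ∧
        dist (pr (F.Phi x t (w₀ + θ * (F.nx x w₀ y - w₀)))) (pr (F.Phi x t w₀)) ≤ ε₁ := by
    intro h1 h2 h3
    refine ⟨by rw [h1]; exact hCen, ⟨a, ha, ?_⟩, h2, fun θ hθ => ?_⟩
    · unfold LFam.Phi
      rw [h1]
      exact hya
    · have h4 := h3 θ hθ
      have h5 := SeamA_fst h4
      have h6 : F.XX x t (w₀ + θ * (F.nx x w₀ y - w₀)) ∈ closedBall (0 : ℂ × ℂ) (3 / 2) := by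
        rw [mem_closedBall_zero_iff, Prod.norm_def]
        exact max_le (by linarith [hC.1, h5.1]) (by linarith [hC.2, h5.2])
      have h7 : F.XX x t w₀ ∈ closedBall (0 : ℂ × ℂ) (3 / 2) := by
        rw [mem_closedBall_zero_iff, Prod.norm_def]
        exact max_le (by linarith [hC.1]) (by linarith [hC.2])
      exact ⟨closedBall_subset_ball (by norm_num) h6, hun _ h6 _ h7 (by linarith)⟩
  by_cases hex : (F.ch x).ex = true
  · -- the chart at a point of a boundary component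
    have hX0 : (F.XX x t w₀).2 = Complex.exp w₀ := by
      rw [XX_eq]
      simp only [if_pos hex]
    have hlow' := hlow hex
    rw [hX0] at hlow'
    have he0 : Complex.exp w₀ ≠ 0 := Complex.exp_ne_zero _
    set s : ℂ := (p₁.2 - Complex.exp w₀) / Complex.exp w₀ with hs
    have hs1 : p₁.2 = Complex.exp w₀ * (1 + s) := by
      rw [hs]
      field_simp
      ring
    have hsn : ‖s‖ * (F.ch x).k ≤ n / 64 := by
      have h1 : ‖p₁.2 - Complex.exp w₀‖ ≤ ε := by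
        rw [← hX0]
        exact (norm_snd_le (p₁ - F.XX x t w₀)).trans hp1
      have h2 : ‖s‖ * c₀ ≤ ε := by
        have h3 : ‖s‖ * ‖Complex.exp w₀‖ = ‖p₁.2 - Complex.exp w₀‖ := by
          rw [hs, norm_div, div_mul_cancel₀ _ (norm_ne_zero_iff.2 he0)]
        calc ‖s‖ * c₀ ≤ ‖s‖ * ‖Complex.exp w₀‖ := mul_le_mul_of_nonneg_left hlow' (norm_nonneg s)
          _ = ‖p₁.2 - Complex.exp w₀‖ := h3
          _ ≤ ε := h1
      have h4 : ‖s‖ * c₀ * (F.ch x).k ≤ m * n / 64 := by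
        rw [← hεk]
        exact mul_le_mul_of_nonneg_right h2 hk0.le
      have h5 : m * n / 64 ≤ c₀ * (n / 64) := by
        rw [mul_div_assoc]
        exact mul_le_mul_of_nonneg_right hmc (by positivity)
      have h6 : c₀ * (‖s‖ * (F.ch x).k) ≤ c₀ * (n / 64) := by
        have h7 : c₀ * (‖s‖ * (F.ch x).k) = ‖s‖ * c₀ * (F.ch x).k := by ring
        rw [h7]
        exact h4.trans h5
      exact le_of_mul_le_mul_left h6 hc
    have hsn' : ‖s‖ ≤ n / 64 := (le_mul_of_one_le_right (norm_nonneg s) hk).trans hsn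
    have hs64 : ‖s‖ ≤ 1 / 2 := by linarith
    have hL := Complex.norm_log_one_add_half_le_self hs64
    set L : ℂ := Complex.log (1 + s) with hLd
    have h1s : (1 : ℂ) + s ≠ 0 := by
      intro h0
      have h1 : s = -1 := by linear_combination h0
      rw [h1, norm_neg, norm_one] at hs64
      norm_num at hs64
    have hexpL : Complex.exp L = 1 + s := by
      rw [hLd, Complex.exp_log h1s]
    have hkL : ‖((F.ch x).k : ℂ) * L‖ ≤ 3 / 128 := by
      rw [norm_mul, Complex.norm_natCast]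
      have h1 := mul_le_mul_of_nonneg_left hL hk0.le
      linarith
    have hratio : (swp x.1.2 ((F.ch x).q y)).2 / Complex.exp ((F.ch x).k * w₀) = Complex.exp ((F.ch x).k * L) := by
      rw [hq, hs1, ← hexpL, mul_pow, ← Complex.exp_nat_mul, ← Complex.exp_nat_mul, mul_comm (Complex.exp _) (Complex.exp _),
        mul_div_assoc, div_self (Complex.exp_ne_zero _), mul_one]
    have hlog : Complex.log (Complex.exp ((F.ch x).k * L)) = (F.ch x).k * L := by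
      have h1 := Complex.abs_im_le_norm (((F.ch x).k : ℂ) * L)
      have h2 := abs_le.1 (h1.trans hkL)
      have h3 := Real.pi_gt_three
      exact Complex.log_exp (by linarith) (by linarith)
    have hkc : ((F.ch x).k : ℂ) ≠ 0 := by
      have h1 := (F.ch x).k_pos
      exact_mod_cast (show (F.ch x).k ≠ 0 by omega)
    have hnx : F.nx x w₀ y = w₀ + L := by
      unfold LFam.nx
      rw [if_pos hex, hratio, hlog, mul_div_cancel_left₀ _ hkc]
    have hLn : ‖L‖ ≤ n / 32 := by linarith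
    have hb1 : ((F.ch x).b : ℝ) ≤ 1 := by exact_mod_cast (F.ch x).b_le
    have hXn : F.XX x t (w₀ + L) = p₁ := by
      have h1 : (F.XX x t (w₀ + L)).2 = p₁.2 := by
        rw [XX_eq]
        simp only [if_pos hex]
        rw [Complex.exp_add, hexpL, hs1]
      have h2 := XX_u h F x t (w₀ + L)
      rw [h1, ← hu1] at h2
      have h3 : p₁.2 ^ (F.ch x).b ≠ 0 := by
        apply pow_ne_zero
        rw [hs1]
        exact mul_ne_zero he0 h1s
      have h4 : (F.XX x t (w₀ + L)).1 = p₁.1 := mul_left_cancel₀ (F.ch x).κ_ne (mul_right_cancel₀ h3 h2)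
      exact Prod.ext h4 h1
    refine ⟨hW, fun _ => ?_, ?_⟩
    · rw [hratio]
      have h1 := Complex.norm_exp_sub_one_le (x := ((F.ch x).k : ℂ) * L) (by linarith)
      linarith
    · apply hend
      · rw [hnx, hXn]
      · rw [hnx]
        have h1 := norm_add_le w₀ L
        linarith
      · intro θ hθ
        rw [hnx, add_sub_cancel_left]
        have hθn : ‖(θ : ℂ)‖ ≤ 1 := by
          rw [Complex.norm_real, Real.norm_eq_abs, abs_of_nonneg hθ.1]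
          exact hθ.2
        have hθL : ‖(θ : ℂ) * L‖ ≤ n / 32 := by
          rw [norm_mul]
          exact (mul_le_of_le_one_left (norm_nonneg L) hθn).trans hLn
        have hbL : ‖-(((F.ch x).b : ℂ) * (θ * L))‖ ≤ n / 32 := by
          rw [norm_neg, norm_mul, Complex.norm_natCast]
          exact (mul_le_of_le_one_left (norm_nonneg ((θ : ℂ) * L)) hb1).trans hθL
        have h1 := Complex.norm_exp_sub_one_le (x := (θ : ℂ) * L) (by linarith)
        have h2 := Complex.norm_exp_sub_one_le (x := -(((F.ch x).b : ℂ) * (θ * L))) (by linarith)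
        rw [XX_eq, XX_eq]
        simp only [if_pos hex]
        rw [Prod.norm_def]
        have hC1 := hC.1
        have hC2 := hC.2
        rw [XX_eq] at hC1 hC2
        simp only [if_pos hex] at hC1 hC2
        apply max_le
        · show ‖(F.ch x).κ⁻¹ * Complex.exp (t - (F.ch x).b * (w₀ + θ * L)) - (F.ch x).κ⁻¹ * Complex.exp (t - (F.ch x).b * w₀)‖ ≤ n / 2
          have h3 : (F.ch x).κ⁻¹ * Complex.exp (t - (F.ch x).b * (w₀ + θ * L)) - (F.ch x).κ⁻¹ * Complex.exp (t - (F.ch x).b * w₀) =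
              ((F.ch x).κ⁻¹ * Complex.exp (t - (F.ch x).b * w₀)) * (Complex.exp (-(((F.ch x).b : ℂ) * (θ * L))) - 1) := by
            rw [mul_sub, mul_one, mul_assoc, ← Complex.exp_add]
            congr 3
            ring
          rw [h3, norm_mul]
          have h4 : ‖(F.ch x).κ⁻¹ * Complex.exp (t - (F.ch x).b * w₀)‖ ≤ 1 := by linarith
          have h5 : ‖Complex.exp (-(((F.ch x).b : ℂ) * (θ * L))) - 1‖ ≤ n / 2 := by linarith
          exact (mul_le_of_le_one_left (norm_nonneg _) h4).trans h5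
        · show ‖Complex.exp (w₀ + θ * L) - Complex.exp w₀‖ ≤ n / 2
          have h3 : Complex.exp (w₀ + θ * L) - Complex.exp w₀ = Complex.exp w₀ * (Complex.exp (θ * L) - 1) := by
            rw [Complex.exp_add]
            ring
          rw [h3, norm_mul]
          have h4 : ‖Complex.exp w₀‖ ≤ 1 := by linarith
          have h5 : ‖Complex.exp ((θ : ℂ) * L) - 1‖ ≤ n / 2 := by linarith
          exact (mul_le_of_le_one_left (norm_nonneg _) h4).trans h5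
  · -- the chart at a point outside of the boundary components
    have hb : (F.ch x).b = 0 := by
      have h1 := (F.ch x).b_le
      by_contra h0
      exact hex ((F.ch x).b_ex (by omega))
    have hk1 : (F.ch x).k = 1 := by
      rcases (F.ch x).k_eq with h1 | h1
      · exact h1
      · exact absurd ((F.ch x).b_ex h1) hex
    have hXX : ∀ w, F.XX x t w = ((F.ch x).κ⁻¹ * Complex.exp t, w) := by
      intro w
      rw [XX_eq, if_neg hex, hb, Nat.cast_zero, zero_mul, sub_zero]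
    have hnx : F.nx x w₀ y = p₁.2 := by
      unfold LFam.nx
      rw [if_neg hex, hq, hk1, pow_one]
    have hu1' : (F.ch x).κ * p₁.1 = Complex.exp t := by
      rw [← hu1, hb, pow_zero, mul_one]
    have hp11 : (F.ch x).κ⁻¹ * Complex.exp t = p₁.1 := by
      rw [← hu1', ← mul_assoc, inv_mul_cancel₀ (F.ch x).κ_ne, one_mul]
    have hdw : ‖p₁.2 - w₀‖ ≤ n / 64 := by
      have h1 := (norm_snd_le (p₁ - F.XX x t w₀)).trans hp1
      rw [hXX] at h1
      have h2 : ‖p₁.2 - w₀‖ ≤ ε := h1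
      linarith
    refine ⟨hW, fun h0 => absurd h0 hex, ?_⟩
    apply hend
    · rw [hnx, hXX, hp11]
    · rw [hnx]
      have h1 := norm_sub_norm_le p₁.2 w₀
      linarith
    · intro θ hθ
      rw [hnx, hXX, hXX]
      have h1 : ((F.ch x).κ⁻¹ * Complex.exp t, w₀ + θ * (p₁.2 - w₀)) - ((F.ch x).κ⁻¹ * Complex.exp t, w₀) = (0, θ * (p₁.2 - w₀)) := by
        rw [Prod.mk_sub_mk, sub_self, add_sub_cancel_left]
      have hθn : ‖(θ : ℂ)‖ ≤ 1 := by
        rw [Complex.norm_real, Real.norm_eq_abs, abs_of_nonneg hθ.1]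
        exact hθ.2
      rw [h1, Prod.norm_def]
      apply max_le
      · show ‖(0 : ℂ)‖ ≤ n / 2
        rw [norm_zero]
        linarith
      · show ‖(θ : ℂ) * (p₁.2 - w₀)‖ ≤ n / 2
        rw [norm_mul]
        exact (mul_le_of_le_one_left (norm_nonneg _) hθn).trans (by linarith)

theorem seam_pt (h : EndData Xb V U D Λ u α) (F : LFam Xb V U D α κ) {c₀ ε₁ : ℝ} (hc : 0 < c₀) (hε : 0 < ε₁) :
    ∃ ε' : ℝ, 0 < ε' ∧ ∀ (x : Ix F) (t w₀ : ℂ) (y : EN N), CenS (F.XX x t w₀) → ((F.ch x).ex = true → c₀ ≤ ‖(F.XX x t w₀).2‖) →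
      y ∈ V → u y - t ∈ Λ → dist (pr (F.Phi x t w₀)) (pr y) ≤ ε' →
      y ∈ (F.ch x).W ∧ ((F.ch x).ex = true → ‖(swp x.1.2 ((F.ch x).q y)).2 / Complex.exp ((F.ch x).k * w₀) - 1‖ < 1 / 2) ∧
      Cen (F.XX x t (F.nx x w₀ y)) ∧ (∃ a : ℂ, a ≠ 0 ∧ y = a • F.Phi x t (F.nx x w₀ y)) ∧ ‖F.nx x w₀ y‖ ≤ ‖w₀‖ + 1 ∧
      ∀ θ ∈ Icc (0 : ℝ) 1, F.XX x t (w₀ + θ * (F.nx x w₀ y - w₀)) ∈ ball (0 : ℂ × ℂ) 2 ∧
        dist (pr (F.Phi x t (w₀ + θ * (F.nx x w₀ y - w₀)))) (pr (F.Phi x t w₀)) ≤ ε₁ := by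
  choose f hf0 hf using SeamA_one h F hc hε
  obtain ⟨δ, hδ, hδf⟩ := SeamA_fin f hf0
  exact ⟨δ, hδ, fun x t w₀ y h1 h2 h3 h4 h5 => hf x t w₀ y h1 h2 h3 h4 (h5.trans (hδf x))⟩

end Pool.Agent.EG.LE
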